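import Pool.Agent.X283.DA.Pack
import Pool.Agent.X35.GM.WinZ

/-!
# Countably many properties of natural numbers with few exceptions, near real powers and at denominators

`Good a m` are properties of the natural numbers `m`, `a` runs through a countable set. If each of them has
`O(X ^ (s + ε))` exceptions `m ≤ X` then the four statements defined here hold.
-/

set_option autoImplicit false

open Finset Filter Topology MeasureTheory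

namespace Pool.Agent.X124.RP

open Pool.Agent.X283.DA (Sparse AllNear AllDenominators)

/-- Near real powers. Let `κ_n / log n → ∞` and `0 ≤ θ < 1`. For all real numbers `t > 1` outside a set of Hausdorff
dimension at most `s / (1 - θ)`, and for almost all `t > 1` if `s + θ < 1`: for ALL `a`, for all large `n`, all natural
numbers `m` with `|m - t ^ κ_n| ≤ t ^ (θ κ_n)` are good. -/
def AtPowers {ι : Type} (Good : ι → ℕ → Prop) (s : ℝ) : Prop :=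
  ∀ (κ : ℕ → ℝ) (θ : ℝ), Tendsto (fun n : ℕ => κ n / Real.log n) atTop atTop → 0 ≤ θ → θ < 1 →
    (∃ E : Set ℝ, dimH E ≤ ENNReal.ofReal (s / (1 - θ)) ∧
      ∀ t : ℝ, 1 < t → t ∉ E → ∀ a, ∃ n₀ : ℕ, ∀ n : ℕ, n₀ ≤ n → ∀ m : ℕ,
        |(m : ℝ) - t ^ κ n| ≤ (t ^ κ n) ^ θ → Good a m) ∧
    (s + θ < 1 → ∀ᵐ t : ℝ, 1 < t → ∀ a, ∃ n₀ : ℕ, ∀ n : ℕ, n₀ ≤ n → ∀ m : ℕ,
      |(m : ℝ) - t ^ κ n| ≤ (t ^ κ n) ^ θ → Good a m)

/-- Near the numbers `n ^ t`. Let `0 ≤ θ < 1`. For all `b > 0` and all real numbers `t ≥ b` outside a set of Hausdorff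
dimension at most `(s + 1 / b) / (1 - θ)`, and for almost all `t > 1 / (1 - s - θ)` if `s + θ < 1`: for ALL `a`, for all
large `n`, all natural numbers `m` with `|m - n ^ t| ≤ n ^ (θ t)` are good. -/
def AtExponents {ι : Type} (Good : ι → ℕ → Prop) (s : ℝ) : Prop :=
  ∀ θ : ℝ, 0 ≤ θ → θ < 1 →
    (∀ b : ℝ, 0 < b → ∃ E : Set ℝ, dimH E ≤ ENNReal.ofReal ((s + 1 / b) / (1 - θ)) ∧
      ∀ t : ℝ, b ≤ t → t ∉ E → ∀ a, ∃ n₀ : ℕ, ∀ n : ℕ, n₀ ≤ n → ∀ m : ℕ,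
        |(m : ℝ) - (n : ℝ) ^ t| ≤ ((n : ℝ) ^ t) ^ θ → Good a m) ∧
    (s + θ < 1 → ∀ᵐ t : ℝ, 1 / (1 - s - θ) < t → ∀ a, ∃ n₀ : ℕ, ∀ n : ℕ, n₀ ≤ n → ∀ m : ℕ,
      |(m : ℝ) - (n : ℝ) ^ t| ≤ ((n : ℝ) ^ t) ^ θ → Good a m)

/-- At denominators. Let `θ, y ∈ ℝ ^ d`, `θ_i ≥ 0`, `θ_1 + ... + θ_d > s`. For almost all `x ∈ ℝ ^ d`, for ALL `a`, all
large natural numbers `q` such that `q x_i` is within `q ^ (-θ_i)` of `y_i` modulo `1`, for all `i`, are good. -/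
def AtDenominators {ι : Type} (Good : ι → ℕ → Prop) (s : ℝ) : Prop :=
  ∀ (d : ℕ) (θ y : Fin d → ℝ), (∀ i, 0 ≤ θ i) → s < ∑ i, θ i →
    ∀ᵐ x : Fin d → ℝ, ∀ a, ∃ q₀ : ℕ, ∀ q : ℕ, q₀ ≤ q →
      (∀ i, ∃ p : ℤ, |(q : ℝ) * x i - p - y i| ≤ (q : ℝ) ^ (-θ i)) → Good a q

/-- At denominators, one real number. Let `θ ≥ 0`, `y` be real. For all real numbers `x` outside a set of Hausdorff
dimension at most `(1 + s) / (1 + θ)`, for ALL `a`, all large natural numbers `q` such that `q x` is within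
`q ^ (-θ)` of `y` modulo `1` are good. -/
def AtApproximations {ι : Type} (Good : ι → ℕ → Prop) (s : ℝ) : Prop :=
  ∀ θ y : ℝ, 0 ≤ θ → ∃ E : Set ℝ, dimH E ≤ ENNReal.ofReal ((1 + s) / (1 + θ)) ∧
    ∀ x : ℝ, x ∉ E → ∀ a, ∃ q₀ : ℕ, ∀ q : ℕ, q₀ ≤ q →
      (∃ p : ℤ, |(q : ℝ) * x - p - y| ≤ (q : ℝ) ^ (-θ)) → Good a q

/-- **The theorem.** -/
theorem many {ι : Type} [Countable ι] (Good : ι → ℕ → Prop) {s : ℝ} (hs : 0 ≤ s)
    (hP : ∀ a, Sparse {m | ¬ Good a m} s) :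
    AtPowers Good s ∧ AtExponents Good s ∧ AtDenominators Good s ∧ AtApproximations Good s := by
  have hpack := fun a => Pool.Agent.X283.DA.pack (Good a) hs (hP a)
  refine ⟨fun κ θ hκ hθ hθ1 => ⟨?_, fun h => ?_⟩, fun θ hθ hθ1 => ⟨fun b hb => ?_, fun h => ?_⟩,
    fun d θ y hθ hsum => ?_, fun θ y hθ => ?_⟩
  · choose E hE1 hE2 using fun a => ((hpack a).1 κ θ hκ hθ hθ1).1
    refine ⟨⋃ a, E a, ?_, fun t ht htE a => hE2 a t ht fun h => htE (Set.mem_iUnion.2 ⟨a, h⟩)⟩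
    rw [dimH_iUnion]
    exact iSup_le hE1
  · have h1 := fun a => ((hpack a).1 κ θ hκ hθ hθ1).2 h
    filter_upwards [ae_all_iff.2 h1] with t ht ht1 a
    exact ht a ht1
  · choose E hE1 hE2 using fun a => ((hpack a).2.1 θ hθ hθ1).1 b hb
    refine ⟨⋃ a, E a, ?_, fun t ht htE a => hE2 a t ht fun h => htE (Set.mem_iUnion.2 ⟨a, h⟩)⟩
    rw [dimH_iUnion]
    exact iSup_le hE1
  · have h1 := fun a => ((hpack a).2.1 θ hθ hθ1).2 h
    filter_upwards [ae_all_iff.2 h1] with t ht ht1 a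
    exact ht a ht1
  · have h1 := fun a => (hpack a).2.2.1 d θ y hθ hsum
    filter_upwards [ae_all_iff.2 h1] with x hx a
    exact hx a
  · choose E hE1 hE2 using fun a => (hpack a).2.2.2 θ y hθ
    refine ⟨⋃ a, E a, ?_, fun x hx a => hE2 a x fun h => hx (Set.mem_iUnion.2 ⟨a, h⟩)⟩
    rw [dimH_iUnion]
    exact iSup_le hE1

/-- the four statements pass to weaker properties -/
theorem many_mono {ι ι' : Type} (Good : ι → ℕ → Prop) (Good' : ι' → ℕ → Prop) {s : ℝ}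
    (h : ∀ a', ∃ a, ∃ m₀ : ℕ, ∀ m : ℕ, m₀ ≤ m → Good a m → Good' a' m)
    (hG : AtDenominators Good s ∧ AtApproximations Good s) :
    AtDenominators Good' s ∧ AtApproximations Good' s := by
  choose g m₀ hg using h
  obtain ⟨h3, h4⟩ := hG
  refine ⟨fun d θ y hθ hsum => ?_, fun θ y hθ => ?_⟩
  · filter_upwards [h3 d θ y hθ hsum] with x hx a'
    obtain ⟨q₀, hq⟩ := hx (g a')
    exact ⟨max q₀ (m₀ a'), fun q hq1 hq2 => hg a' q ((le_max_right _ _).trans hq1)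
      (hq q ((le_max_left _ _).trans hq1) hq2)⟩
  · obtain ⟨E, hE, h⟩ := h4 θ y hθ
    refine ⟨E, hE, fun x hx a' => ?_⟩
    obtain ⟨q₀, hq⟩ := h x hx (g a')
    exact ⟨max q₀ (m₀ a'), fun q hq1 hq2 => hg a' q ((le_max_right _ _).trans hq1)
      (hq q ((le_max_left _ _).trans hq1) hq2)⟩

/-- subsets of sparse sets -/
theorem _root_.Pool.Agent.X283.DA.Sparse.mono' {P Q : Set ℕ} {s : ℝ} (hQ : Sparse Q s) (h : P ⊆ Q) : Sparse P s := by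
  intro ε hε
  obtain ⟨C, hC⟩ := hQ ε hε
  refine ⟨C, fun X hX => ?_⟩
  obtain ⟨h1, h2⟩ := hC X hX
  have hsub : {t : ℕ | t ∈ P ∧ (t : ℝ) ≤ X} ⊆ {t : ℕ | t ∈ Q ∧ (t : ℝ) ≤ X} := fun t ht => ⟨h ht.1, ht.2⟩
  exact ⟨h1.subset hsub, (by exact_mod_cast Set.ncard_le_ncard hsub h1 : (_ : ℝ) ≤ _).trans h2⟩

/-- sets of integers with few elements in the large dyadic shells -/
theorem sparse_of_shell (S : Set ℤ) {s : ℝ} (hs : 0 ≤ s)
    (hS : ∃ C : ℝ, ∃ i₁ : ℕ, ∀ i : ℕ, i₁ ≤ i → ((Pool.Agent.X35.GM.shell S i).ncard : ℝ) ≤ C * ((2 : ℝ) ^ i) ^ s) :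
    Sparse {m : ℕ | ¬ ∀ n : ℤ, n.natAbs = m → n ∉ S} s := by
  have hcum := Pool.Agent.X35.GM.cumul S hs (by
    intro ε hε
    obtain ⟨C, i₁, hC⟩ := hS
    refine ⟨|C| + 4 * 2 ^ i₁, fun i => ?_⟩
    have hT1 : (1 : ℝ) ≤ (2 : ℝ) ^ i := one_le_pow₀ (by norm_num)
    have hTs : ((2 : ℝ) ^ i) ^ s ≤ ((2 : ℝ) ^ i) ^ (s + ε) := Real.rpow_le_rpow_of_exponent_le hT1 (by linarith)
    have hT0 : (1 : ℝ) ≤ ((2 : ℝ) ^ i) ^ (s + ε) := Real.one_le_rpow hT1 (by linarith)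
    rcases lt_or_ge i i₁ with h | h
    · have h1 := Pool.Agent.X35.GM.shell_le S i
      have h2 : (2 : ℝ) ^ i ≤ 2 ^ i₁ := pow_le_pow_right₀ (by norm_num) h.le
      have h3 := abs_nonneg C
      nlinarith
    · have h1 := hC i h
      have h2 : C * ((2 : ℝ) ^ i) ^ s ≤ |C| * ((2 : ℝ) ^ i) ^ (s + ε) := by
        calc C * ((2 : ℝ) ^ i) ^ s ≤ |C| * ((2 : ℝ) ^ i) ^ s := mul_le_mul_of_nonneg_right (le_abs_self C) (by positivity)
          _ ≤ |C| * ((2 : ℝ) ^ i) ^ (s + ε) := mul_le_mul_of_nonneg_left hTs (abs_nonneg C)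
      have h3 : (0 : ℝ) ≤ 4 * 2 ^ i₁ := by positivity
      nlinarith)
  intro ε hε
  obtain ⟨C, hC⟩ := hcum ε hε
  refine ⟨C, fun X hX => ?_⟩
  obtain ⟨h1, h2⟩ := hC X hX
  have hsub : {t : ℕ | t ∈ {m : ℕ | ¬ ∀ n : ℤ, n.natAbs = m → n ∉ S} ∧ (t : ℝ) ≤ X} ⊆
      Int.natAbs '' {t | t ∈ S ∧ |(t : ℝ)| ≤ X} := by
    rintro m ⟨hm, hmX⟩
    simp only [Set.mem_setOf_eq, not_forall] at hm
    obtain ⟨n, hn, hnS⟩ := hm
    rw [not_not] at hnS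
    refine ⟨n, ⟨hnS, ?_⟩, hn⟩
    rw [← Int.cast_abs, Int.abs_eq_natAbs, hn]
    exact_mod_cast hmX
  refine ⟨(h1.image _).subset hsub, le_trans ?_ h2⟩
  exact_mod_cast (Set.ncard_le_ncard hsub (h1.image _)).trans (Set.ncard_image_le h1)

end Pool.Agent.X124.RP
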