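import Pool.Agent.X35.GV.Win
import Pool.Agent.X124.RP.Many

/-!
# The law for countably many systems of conditions: the exceptional integers are sparse
-/

set_option autoImplicit false

namespace Pool.Agent.X124.RP
open Finset Pool.Agent.X35.GV
open Pool.Agent.X283.DA (Sparse)

open Classical in
/-- the law, in terms of sparse sets; the proof is that of `Pool.Agent.X35.GV.lawWin` -/
theorem lawP (δ A : ℝ) (B : ℕ) (hδ : 0 < δ) (hB : 1 ≤ B) : ∃ κ : ℝ, 0 < κ ∧ κ ≤ 1 / 2 ∧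
    ∀ (Γ : Type) (Ka : Type) (Λ : Γ → ℕ → Finset Ka), (∀ c x, 2 ≤ x → ((Λ c x).card : ℝ) ≤ (x : ℝ) ^ A) →
    ∀ (ι : Type) (I : Γ → ℕ → Ka → Finset ι) (q : Γ → Ka → ι → ℕ),
    (∀ c x, ∀ l ∈ Λ c x, ∀ a ∈ I c x l, 2 ≤ q c l a ∧ q c l a ≤ x ^ B) →
    (∀ c x, ∀ l ∈ Λ c x, ∀ a ∈ I c x l, ∀ a' ∈ I c x l, a ≠ a' → Nat.Coprime (q c l a) (q c l a')) →
    ∀ T : Γ → Ka → ι → ℤ → Prop,
    (∀ c x, ∀ l ∈ Λ c x, ∀ a ∈ I c x l, ∀ m m' : ℤ, m ≡ m' [ZMOD (q c l a : ℕ)] → (T c l a m ↔ T c l a m')) →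
    ∀ c : Γ, Sparse {m : ℕ | ¬ ∀ n : ℤ, n.natAbs = m → ∀ x : ℕ, Real.log m ^ (2 / δ) ≤ x → (x : ℝ) ≤ (m : ℝ) ^ κ →
      ∀ l ∈ Λ c x, |(((I c x l).filter (fun a => T c l a n)).card : ℝ) - ∑ a ∈ I c x l, prob (q c l a) (T c l a)| ≤
            √(max 1 (∑ a ∈ I c x l, prob (q c l a) (T c l a))) * (x : ℝ) ^ δ} (1 - κ) := by
  obtain ⟨κ, hκ, hκ1, N₀, H⟩ := law1 δ A B hδ hB
  refine ⟨κ / 2, by linarith, by linarith, fun Γ Ka Λ hΛ ι I q hq hcop T hT => ?_⟩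
  obtain ⟨S, hS⟩ : ∃ S : Γ → Set ℤ, S = fun c => {n : ℤ | ∃ x : ℕ, Real.log |(n : ℝ)| ^ (2 / δ) ≤ x ∧
      (x : ℝ) ≤ |(n : ℝ)| ^ (κ / 2) ∧ ∃ l ∈ Λ c x,
      √(max 1 (∑ a ∈ I c x l, prob (q c l a) (T c l a))) * (x : ℝ) ^ δ <
      |(((I c x l).filter (fun a => T c l a n)).card : ℝ) - ∑ a ∈ I c x l, prob (q c l a) (T c l a)|} := ⟨_, rfl⟩
  have hsh : ∀ c : Γ, ∃ C : ℝ, ∃ i₁ : ℕ, ∀ i : ℕ, i₁ ≤ i →
      ((Pool.Agent.X35.GM.shell (S c) i).ncard : ℝ) ≤ C * ((2 : ℝ) ^ i) ^ (1 - κ / 2) := by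
    intro c
    refine ⟨2, N₀ + 1, fun i hi => ?_⟩
    obtain ⟨N, hN⟩ : ∃ N : ℕ, N = 2 ^ i := ⟨_, rfl⟩
    have hNN : N₀ ≤ N := by
      have h1 : i < 2 ^ i := Nat.lt_two_pow_self
      omega
    have hN2 : 2 ≤ N := by
      rw [hN]
      calc 2 = 2 ^ 1 := by norm_num
        _ ≤ 2 ^ i := Nat.pow_le_pow_right (by norm_num) (by omega)
    have hNr : ((2 : ℝ) ^ i) = N := by rw [hN]; push_cast; rfl
    have hN2r : (2 : ℝ) ≤ N := by exact_mod_cast hN2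
    -- for members of the shell the conditions of the law hold
    have hcond : ∀ n ∈ Pool.Agent.X35.GM.shell (S c) i, ∃ x : ℕ, Real.log N ^ (2 / δ) ≤ x ∧ (x : ℝ) ≤ (N : ℝ) ^ κ ∧ ∃ l ∈ Λ c x,
        √(max 1 (∑ a ∈ I c x l, prob (q c l a) (T c l a))) * (x : ℝ) ^ δ <
        |(((I c x l).filter (fun a => T c l a n)).card : ℝ) - ∑ a ∈ I c x l, prob (q c l a) (T c l a)| := by
      rintro n ⟨hn, hn1, hn2⟩
      rw [hS] at hn
      obtain ⟨x, hx1, hx2, l, hl, h⟩ := hn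
      have h1 : (N : ℝ) ≤ |(n : ℝ)| := by rw [← hNr]; exact_mod_cast hn1
      have h2 : |(n : ℝ)| ≤ 2 * N := by
        have h3 : |(n : ℝ)| < 2 ^ (i + 1) := by exact_mod_cast hn2
        rw [pow_succ, hNr] at h3
        linarith
      refine ⟨x, le_trans ?_ hx1, hx2.trans ?_, l, hl, h⟩
      · exact Real.rpow_le_rpow (Real.log_nonneg (by linarith)) (Real.log_le_log (by linarith) h1) (by positivity)
      · calc |(n : ℝ)| ^ (κ / 2) ≤ ((N : ℝ) ^ (2 : ℝ)) ^ (κ / 2) := by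
              apply Real.rpow_le_rpow (abs_nonneg _) _ (by linarith)
              rw [Real.rpow_two]
              nlinarith
          _ = (N : ℝ) ^ κ := by
              rw [← Real.rpow_mul (by positivity)]
              congr 1
              ring
    have hfin : (Pool.Agent.X35.GM.shell (S c) i).Finite := by
      refine (Set.finite_Icc (-(2 ^ (i + 1)) : ℤ) (2 ^ (i + 1))).subset ?_
      rintro n ⟨-, -, hn2⟩
      exact abs_le.1 hn2.le
    obtain ⟨P, hP⟩ : ∃ P : Finset ℤ, P = hfin.toFinset.filter (fun n => 0 < n) := ⟨_, rfl⟩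
    obtain ⟨Q, hQ⟩ : ∃ Q : Finset ℤ, Q = hfin.toFinset.filter (fun n => ¬ 0 < n) := ⟨_, rfl⟩
    have hP1 : (P.card : ℝ) ≤ (N : ℝ) ^ (1 - κ) := by
      refine H N hNN Ka (Λ c) (hΛ c) ι (I c) (q c) (hq c) (hcop c) (T c) (hT c) N P ?_ ?_
      · intro m hm
        rw [hP, mem_filter, Set.Finite.mem_toFinset] at hm
        obtain ⟨⟨-, h1, h2⟩, h3⟩ := hm
        rw [abs_of_pos h3] at h1 h2
        rw [pow_succ] at h2
        have h4 : ((2 : ℤ) ^ i) = (N : ℤ) := by rw [hN]; push_cast; rfl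
        rw [h4] at h1 h2
        constructor <;> linarith
      · intro m hm
        rw [hP, mem_filter, Set.Finite.mem_toFinset] at hm
        exact hcond m hm.1
    have hQ1 : (Q.card : ℝ) ≤ (N : ℝ) ^ (1 - κ) := by
      refine H N hNN Ka (Λ c) (hΛ c) ι (I c) (q c) (hq c) (hcop c) (T c) (hT c) (-(2 * N) + 1) Q ?_ ?_
      · intro m hm
        rw [hQ, mem_filter, Set.Finite.mem_toFinset] at hm
        obtain ⟨⟨-, h1, h2⟩, h3⟩ := hm
        push Not at h3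
        rw [abs_of_nonpos h3] at h1 h2
        rw [pow_succ] at h2
        have h4 : ((2 : ℤ) ^ i) = (N : ℤ) := by rw [hN]; push_cast; rfl
        rw [h4] at h1 h2
        constructor <;> linarith
      · intro m hm
        rw [hQ, mem_filter, Set.Finite.mem_toFinset] at hm
        exact hcond m hm.1
    have hc : (Pool.Agent.X35.GM.shell (S c) i).ncard = P.card + Q.card := by
      rw [Set.ncard_eq_toFinset_card _ hfin, hP, hQ, card_filter_add_card_filter_not]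
    rw [hc, hNr]
    push_cast
    have h5 : (N : ℝ) ^ (1 - κ) ≤ (N : ℝ) ^ (1 - κ / 2) := Real.rpow_le_rpow_of_exponent_le (by linarith) (by linarith)
    linarith
  intro c
  have h := sparse_of_shell (S c) (s := 1 - κ / 2) (by linarith) (hsh c)
  refine h.mono' ?_
  intro m hm
  simp only [Set.mem_setOf_eq, not_forall] at hm ⊢
  obtain ⟨n, hn, x, hx1, hx2, l, hl, hbig⟩ := hm
  refine ⟨n, hn, not_not.2 ?_⟩
  have e : |(n : ℝ)| = (m : ℝ) := by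
    rw [← Int.cast_abs, Int.abs_eq_natAbs, hn]
    norm_cast
  rw [hS]
  refine ⟨x, ?_, ?_, l, hl, not_le.1 hbig⟩
  · rw [e]; exact hx1
  · rw [e]; exact hx2

end Pool.Agent.X124.RP
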