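import Pool.Agent.X35.OR.Dens
import Pool.Agent.X124.RP.LawP

/-!
# Lower bounds for the number of primes with a property, the exceptional integers are sparse
-/

set_option autoImplicit false

namespace Pool.Agent.X124.RP
open Finset Pool.Agent.X35.GV Pool.Agent.X35.OR
open Pool.Agent.X283.DA (Sparse)

/-- finitely many further elements -/
theorem sparse_eventually {P Q : Set ℕ} {s : ℝ} (hs : 0 ≤ s) (hP : Sparse P s) (m₀ : ℕ)
    (h : ∀ m ∈ Q, m₀ ≤ m → m ∈ P) : Sparse Q s := by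
  intro ε hε
  obtain ⟨C, hC⟩ := hP ε hε
  refine ⟨|C| + m₀, fun X hX => ?_⟩
  obtain ⟨h1, h2⟩ := hC X hX
  have hsub : {t : ℕ | t ∈ Q ∧ (t : ℝ) ≤ X} ⊆ {t : ℕ | t ∈ P ∧ (t : ℝ) ≤ X} ∪ ((range m₀ : Finset ℕ) : Set ℕ) := by
    rintro t ⟨ht, htX⟩
    rcases lt_or_ge t m₀ with h3 | h3
    · exact Or.inr (by rw [mem_coe, mem_range]; exact h3)
    · exact Or.inl ⟨h t ht h3, htX⟩
  have hfin := h1.union (Finset.finite_toSet (range m₀))
  refine ⟨hfin.subset hsub, ?_⟩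
  have h3 := (Set.ncard_le_ncard hsub hfin).trans (Set.ncard_union_le _ _)
  rw [Set.ncard_coe_finset, card_range] at h3
  have h4 : (({t : ℕ | t ∈ Q ∧ (t : ℝ) ≤ X}.ncard : ℕ) : ℝ) ≤ ({t : ℕ | t ∈ P ∧ (t : ℝ) ≤ X}.ncard : ℝ) + m₀ := by
    exact_mod_cast h3
  have h5 : 1 ≤ X ^ (s + ε) := Real.one_le_rpow hX (by linarith)
  have h6 : C * X ^ (s + ε) ≤ |C| * X ^ (s + ε) := mul_le_mul_of_nonneg_right (le_abs_self C) (by linarith)
  have h7 : (0 : ℝ) ≤ m₀ := Nat.cast_nonneg _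
  nlinarith

open Classical in
theorem densP (δ A : ℝ) (hδ : 0 < δ) : ∃ κ C : ℝ, 0 < κ ∧ κ ≤ 1 / 2 ∧ 0 < C ∧
    ∀ (H : ℕ → Finset (Set ℕ)), (∀ x, 2 ≤ x → ((H x).card : ℝ) ≤ (x : ℝ) ^ A) →
    ∀ (Γ : Type) (R : Γ → ℕ → Prop) (T : Γ → ℕ → ℤ → Prop) (η K : Γ → ℝ), (∀ c, 0 ≤ η c ∧ 0 ≤ K c) →
    (∀ c, ∀ p : ℕ, p.Prime → p ≠ 2 → R c p → ∀ m m' : ℤ, m ≡ m' [ZMOD (p : ℕ)] → (T c p m ↔ T c p m')) →
    (∀ c, ∀ p : ℕ, p.Prime → p ≠ 2 → R c p → (((range p).filter (fun m : ℕ => T c p m)).card : ℝ) ≤ η c * p + K c) →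
    ∀ c : Γ, Sparse {m : ℕ | ¬ ∀ n : ℤ, n.natAbs = m → ∀ x : ℕ, Real.log m ^ C ≤ x → (x : ℝ) ≤ (m : ℝ) ^ κ →
      ∀ P ∈ H x, (1 - η c) * ((sel x P (R c)).card : ℝ) - (x : ℝ) ^ (1 / 2 + δ) ≤
        ((sel x P (fun p => R c p ∧ ¬ T c p n)).card : ℝ)} (1 - κ) := by
  obtain ⟨κ, hκ, hκ1, HH⟩ := lawP (δ / 2) A 1 (by positivity) le_rfl
  refine ⟨κ, 2 / (δ / 2), hκ, hκ1, by positivity, fun H hH Γ R T η K hηK hper hb c => ?_⟩
  have hlaw := HH Γ (Set ℕ) (fun _ x => H x) (fun _ x hx => hH x hx) ℕ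
    (fun c x P => sel x P (R c)) (fun _ _ p => p)
    (by
      intro c x l _ p hp
      rw [mem_sel] at hp
      exact ⟨hp.2.1.two_le, by rw [pow_one]; exact hp.1⟩)
    (by
      intro c x l _ p hp p' hp' hne
      rw [mem_sel] at hp hp'
      exact (Nat.coprime_primes hp.2.1 hp'.2.1).2 hne)
    (fun c _ p n => T c p n)
    (by
      intro c x l _ p hp m m' h
      rw [mem_sel] at hp
      exact hper c p hp.2.1 hp.2.2.1 hp.2.2.2.2 m m' h) c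
  obtain ⟨x₀, hx₀⟩ := absorb2 δ (K c) hδ (hηK c).2
  obtain ⟨m₀, hm₀⟩ : ∃ m₀ : ℕ, ∀ m : ℕ, m₀ ≤ m → max x₀ 3 ≤ Real.log m ^ (2 / (δ / 2)) := by
    have h1 : Filter.Tendsto (fun N : ℕ => Real.log (N : ℝ) ^ (2 / (δ / 2))) Filter.atTop Filter.atTop :=
      (tendsto_rpow_atTop (by positivity)).comp (Real.tendsto_log_atTop.comp tendsto_natCast_atTop_atTop)
    exact Filter.eventually_atTop.1 (h1.eventually_ge_atTop _)
  refine sparse_eventually (by linarith) hlaw m₀ fun m hm hm0 hl => hm fun n hn x hx1 hx2 P hP => ?_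
  have hlarge := hm₀ m hm0
  have hxx : x₀ ≤ x := ((le_max_left _ _).trans hlarge).trans hx1
  have hx3 : (3 : ℝ) ≤ x := ((le_max_right _ _).trans hlarge).trans hx1
  have hx2' : 2 ≤ x := by
    have : (2 : ℝ) ≤ x := by linarith
    exact_mod_cast this
  have hmain := hl n hn x hx1 hx2 P hP
  refine abs_bound δ (η c) (K c) (hηK c).1 (hηK c).2 x hx2' (sel x P (R c)) (fun p hp => ⟨(mem_sel.1 hp).2.1, (mem_sel.1 hp).1⟩)
    (fun p => prob p (T c p)) (fun p hp => ?_) ((sel x P (fun p => R c p ∧ T c p n)).card) _ (sel_split x P (R c) (fun p => T c p n)) ?_ (hx₀ x hxx)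
  · rw [mem_sel] at hp
    have hp0 : (0 : ℝ) < p := by exact_mod_cast hp.2.1.pos
    constructor
    · unfold prob
      rw [div_le_one hp0]
      have := card_filter_le (range p) (fun n : ℕ => T c p n)
      rw [card_range] at this
      exact_mod_cast this
    · have h1 := hb c p hp.2.1 hp.2.2.1 hp.2.2.2.2
      unfold prob
      rw [div_le_iff₀ hp0, add_mul, div_mul_cancel₀ _ hp0.ne']
      exact h1
  · have e : (sel x P (fun p => R c p ∧ T c p n)) = (sel x P (R c)).filter (fun p => T c p n) := by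
      ext p
      rw [mem_filter, mem_sel, mem_sel]
      tauto
    rw [e]
    exact hmain

end Pool.Agent.X124.RP
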