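import Pool.Agent.X124.RP.Many
import Pool.Agent.X283.DA.Dyadic

/-!
# Nonnegative functions bounded on average: the exceptions to pointwise bounds are sparse
-/

set_option autoImplicit false

open Finset

namespace Pool.Agent.X124.RP

/-- If `∑ u(m)` over `N ≤ m < 2 N` is `O(N ^ (1 + ε))` then `u(m) ≤ m ^ β` has `O(X ^ (1 - β + ε))` exceptions `m ≤ X`. -/
theorem sparse_of_mean (u : ℕ → ℝ) (hu : ∀ m, 0 ≤ u m)
    (h : ∀ ε : ℝ, 0 < ε → ∃ C : ℝ, ∀ N : ℕ, 1 ≤ N → ∑ m ∈ Ico N (2 * N), u m ≤ C * (N : ℝ) ^ (1 + ε))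
    {β : ℝ} (hβ0 : 0 ≤ β) (hβ : β ≤ 1) :
    Pool.Agent.X283.DA.Sparse {m : ℕ | ¬ u m ≤ (m : ℝ) ^ β} (1 - β) := by
  classical
  refine Pool.Agent.X283.DA.sparse_of_dyadic (by linarith) fun ε hε => ?_
  obtain ⟨C, hC⟩ := h ε hε
  refine ⟨|C| * 2 ^ (1 + ε), 1, fun K hK => ?_⟩
  have hK1 : (1 : ℝ) ≤ K := by exact_mod_cast hK
  have hK0 : (0 : ℝ) < K := by linarith
  have h1 := hC (K + 1) (by omega)
  set T : Finset ℕ := (Ico (K + 1) (2 * (K + 1))).filter (fun n => ¬ u n ≤ (n : ℝ) ^ β) with hT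
  have hsub : {n : ℕ | n ∈ {m : ℕ | ¬ u m ≤ (m : ℝ) ^ β} ∧ K < n ∧ n ≤ 2 * K} ⊆ (T : Set ℕ) := by
    rintro n ⟨h2, h3, h4⟩
    rw [hT, mem_coe, mem_filter, mem_Ico]
    exact ⟨⟨by omega, by omega⟩, h2⟩
  have hcard : ({n : ℕ | n ∈ {m : ℕ | ¬ u m ≤ (m : ℝ) ^ β} ∧ K < n ∧ n ≤ 2 * K}.ncard : ℝ) ≤ T.card := by
    have := Set.ncard_le_ncard hsub T.finite_toSet
    rw [Set.ncard_coe_finset] at this
    exact_mod_cast this
  have h2 : (T.card : ℝ) * (K : ℝ) ^ β ≤ ∑ m ∈ Ico (K + 1) (2 * (K + 1)), u m := by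
    calc (T.card : ℝ) * (K : ℝ) ^ β = ∑ _m ∈ T, (K : ℝ) ^ β := by rw [sum_const, nsmul_eq_mul]
      _ ≤ ∑ m ∈ T, u m := by
          apply sum_le_sum
          intro m hm
          rw [hT, mem_filter, mem_Ico, not_le] at hm
          have h3 : (K : ℝ) ≤ m := by
            have : K ≤ m := by omega
            exact_mod_cast this
          exact (Real.rpow_le_rpow hK0.le h3 hβ0).trans hm.2.le
      _ ≤ ∑ m ∈ Ico (K + 1) (2 * (K + 1)), u m :=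
          sum_le_sum_of_subset_of_nonneg (filter_subset _ _) (fun m _ _ => hu m)
  have h3 : C * (((K + 1 : ℕ) : ℝ)) ^ (1 + ε) ≤ |C| * 2 ^ (1 + ε) * (K : ℝ) ^ (1 + ε) := by
    have h4 : (((K + 1 : ℕ) : ℝ)) ^ (1 + ε) ≤ (2 * (K : ℝ)) ^ (1 + ε) := by
      apply Real.rpow_le_rpow (Nat.cast_nonneg _) _ (by linarith)
      push_cast
      linarith
    rw [Real.mul_rpow (by norm_num) hK0.le] at h4
    calc C * (((K + 1 : ℕ) : ℝ)) ^ (1 + ε) ≤ |C| * (((K + 1 : ℕ) : ℝ)) ^ (1 + ε) :=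
          mul_le_mul_of_nonneg_right (le_abs_self C) (by positivity)
      _ ≤ |C| * (2 ^ (1 + ε) * (K : ℝ) ^ (1 + ε)) := mul_le_mul_of_nonneg_left h4 (abs_nonneg C)
      _ = _ := by ring
  have h4 : (T.card : ℝ) * (K : ℝ) ^ β ≤ |C| * 2 ^ (1 + ε) * (K : ℝ) ^ (1 + ε) := (h2.trans h1).trans h3
  have h5 : (K : ℝ) ^ (1 - β + ε) * (K : ℝ) ^ β = (K : ℝ) ^ (1 + ε) := by
    rw [← Real.rpow_add hK0]
    congr 1
    ring
  have hKβ : 0 < (K : ℝ) ^ β := Real.rpow_pos_of_pos hK0 _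
  refine hcard.trans (le_of_mul_le_mul_right ?_ hKβ)
  calc (T.card : ℝ) * (K : ℝ) ^ β ≤ |C| * 2 ^ (1 + ε) * (K : ℝ) ^ (1 + ε) := h4
    _ = |C| * 2 ^ (1 + ε) * (K : ℝ) ^ (1 - β + ε) * (K : ℝ) ^ β := by rw [mul_assoc _ _ ((K : ℝ) ^ β), h5]

end Pool.Agent.X124.RP
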