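import Pool.Agent.X174.WinVec
import Pool.Agent.X35.GM.Cumul

/-!
# Integral vectors near the multiples `v_l α` of a generic real vector avoid thin sets

`S` is a set of objects `t` with integral coordinates `co t`; its dyadic shells have at most `C 2 ^ (s i)` elements.
-/

set_option autoImplicit false

open Finset Filter Topology MeasureTheory

namespace Pool.Agent.X124.RP

open scoped ENNReal NNReal

/-- the largest absolute value of the coordinates -/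
def nm {κ : Type} [Fintype κ] {T : Type} (co : T → κ → ℤ) (t : T) : ℕ := univ.sup fun l => (co t l).natAbs

theorem nm_le_iff {κ : Type} [Fintype κ] {T : Type} (co : T → κ → ℤ) (t : T) {X : ℝ} (hX : 0 ≤ X) :
    ((nm co t : ℕ) : ℝ) ≤ X ↔ ∀ l, |((co t l : ℤ) : ℝ)| ≤ X := by
  have e : ∀ l, |((co t l : ℤ) : ℝ)| = ((co t l).natAbs : ℝ) := fun l => by
    rw [Nat.cast_natAbs, Int.cast_abs]
  constructor
  · intro h l
    rw [e]
    refine le_trans ?_ h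
    exact_mod_cast Finset.le_sup (f := fun l => (co t l).natAbs) (mem_univ l)
  · intro h
    have h1 : nm co t ≤ ⌊X⌋₊ := Finset.sup_le fun l _ => Nat.le_floor (by rw [← e]; exact h l)
    exact (Nat.cast_le.2 h1).trans (Nat.floor_le hX)

theorem nm_finite {κ : Type} [Fintype κ] {T : Type} (co : T → κ → ℤ) (hinj : Function.Injective co) (N : ℕ) :
    {t | nm co t ≤ N}.Finite := by
  have h1 : (Set.pi Set.univ (fun _ : κ => Set.Icc (-(N : ℤ)) N)).Finite :=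
    Set.Finite.pi fun _ => Set.finite_Icc _ _
  refine Set.Finite.subset (h1.preimage hinj.injOn) ?_
  intro t ht l _
  have h2 : (co t l).natAbs ≤ N := (Finset.le_sup (f := fun l => (co t l).natAbs) (mem_univ l)).trans ht
  have h3 : |co t l| ≤ N := by
    rw [Int.abs_eq_natAbs]
    exact_mod_cast h2
  exact Set.mem_Icc.2 (abs_le.1 h3)

/-- from dyadic shells to balls -/
theorem cumulG {T : Type} (S : Set T) (nm : T → ℕ) (hfin : ∀ N : ℕ, {t | nm t ≤ N}.Finite) {s : ℝ} (hs : 0 ≤ s)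
    (hS : ∃ C : ℝ, ∃ i₁ : ℕ, ∀ i : ℕ, i₁ ≤ i →
      ({t | t ∈ S ∧ 2 ^ i ≤ nm t ∧ nm t < 2 ^ (i + 1)}.ncard : ℝ) ≤ C * ((2 : ℝ) ^ i) ^ s)
    (ε : ℝ) (hε : 0 < ε) : ∃ C : ℝ, ∀ X : ℝ, 1 ≤ X → {t | t ∈ S ∧ (nm t : ℝ) ≤ X}.Finite ∧
      ({t | t ∈ S ∧ (nm t : ℝ) ≤ X}.ncard : ℝ) ≤ C * X ^ (s + ε) := by
  classical
  obtain ⟨C, i₁, hC⟩ := hS
  have hfS : ∀ i : ℕ, {t | t ∈ S ∧ 2 ^ i ≤ nm t ∧ nm t < 2 ^ (i + 1)}.Finite := fun i =>
    (hfin (2 ^ (i + 1))).subset fun t ht => ht.2.2.le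
  obtain ⟨Z, hZ⟩ : ∃ Z : ℕ → Finset T, ∀ i, (Z i : Set T) = {t | t ∈ S ∧ 2 ^ i ≤ nm t ∧ nm t < 2 ^ (i + 1)} :=
    ⟨fun i => (hfS i).toFinset, fun i => (hfS i).coe_toFinset⟩
  obtain ⟨Z0, hZ0⟩ : ∃ Z0 : Finset T, (Z0 : Set T) = {t | nm t ≤ 2 ^ i₁} :=
    ⟨(hfin _).toFinset, (hfin _).coe_toFinset⟩
  refine ⟨(Z0.card : ℝ) + |C| * (2 / ε + 2), fun X hX => ?_⟩
  have hX0 : 0 < X := by linarith
  have hX1 : ⌊X⌋₊ ≠ 0 := (Nat.floor_pos.2 hX).ne'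
  set L : ℕ := Nat.log 2 ⌊X⌋₊ with hL
  have hsub : {t | t ∈ S ∧ (nm t : ℝ) ≤ X} ⊆ ((Z0 ∪ (Finset.Ico i₁ (L + 1)).biUnion Z : Finset T) : Set T) := by
    rintro t ⟨htS, htX⟩
    rw [coe_union, coe_biUnion]
    rcases le_or_gt (nm t) (2 ^ i₁) with h | h
    · left
      rw [hZ0]
      exact h
    · right
      have h0 : nm t ≠ 0 := by
        have : 0 < 2 ^ i₁ := by positivity
        omega
      have h1 : 2 ^ Nat.log 2 (nm t) ≤ nm t := Nat.pow_log_le_self 2 h0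
      have h2 : nm t < 2 ^ (Nat.log 2 (nm t) + 1) := Nat.lt_pow_succ_log_self (by norm_num) _
      have h3 : i₁ ≤ Nat.log 2 (nm t) := Nat.le_log_of_pow_le (by norm_num) h.le
      have h4 : Nat.log 2 (nm t) ≤ L := Nat.log_mono_right (Nat.le_floor htX)
      refine Set.mem_biUnion (x := Nat.log 2 (nm t)) ?_ ?_
      · rw [mem_coe, mem_Ico]
        exact ⟨h3, by omega⟩
      · rw [hZ]
        exact ⟨htS, h1, h2⟩
  refine ⟨(Finset.finite_toSet _).subset hsub, ?_⟩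
  have h1 := Set.ncard_le_ncard hsub (Finset.finite_toSet _)
  rw [Set.ncard_coe_finset] at h1
  have h2 : ((Z0 ∪ (Finset.Ico i₁ (L + 1)).biUnion Z).card : ℝ) ≤ (Z0.card : ℝ) + ∑ i ∈ Finset.Ico i₁ (L + 1), ((Z i).card : ℝ) := by
    have h3 := (card_union_le Z0 ((Finset.Ico i₁ (L + 1)).biUnion Z)).trans (Nat.add_le_add_left card_biUnion_le _)
    exact_mod_cast h3
  have hpow : ∀ i ∈ Finset.Ico i₁ (L + 1), ((Z i).card : ℝ) ≤ |C| * X ^ s := by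
    intro i hi
    rw [mem_Ico] at hi
    have h3 := hC i hi.1
    rw [← hZ i, Set.ncard_coe_finset] at h3
    refine h3.trans ?_
    have h4 : ((2 : ℝ) ^ i) ≤ X := by
      have h5 : 2 ^ i ≤ ⌊X⌋₊ := (Nat.pow_le_pow_right (by norm_num) (by omega)).trans (Nat.pow_log_le_self 2 hX1)
      calc ((2 : ℝ) ^ i) ≤ ((⌊X⌋₊ : ℕ) : ℝ) := by exact_mod_cast h5
        _ ≤ X := Nat.floor_le hX0.le
    calc C * ((2 : ℝ) ^ i) ^ s ≤ |C| * ((2 : ℝ) ^ i) ^ s := mul_le_mul_of_nonneg_right (le_abs_self C) (by positivity)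
      _ ≤ |C| * X ^ s := mul_le_mul_of_nonneg_left (Real.rpow_le_rpow (by positivity) h4 hs) (abs_nonneg C)
  have h3 : ∑ i ∈ Finset.Ico i₁ (L + 1), ((Z i).card : ℝ) ≤ ((L : ℝ) + 2) * (|C| * X ^ s) := by
    refine (sum_le_sum hpow).trans ?_
    rw [sum_const, nsmul_eq_mul, Nat.card_Ico]
    apply mul_le_mul_of_nonneg_right _ (by positivity)
    have : ((L + 1 - i₁ : ℕ) : ℝ) ≤ ((L + 1 : ℕ) : ℝ) := by exact_mod_cast Nat.sub_le _ _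
    push_cast at this
    linarith
  have h4 := Pool.Agent.X35.GM.log2_le hε hX
  rw [← hL] at h4
  have h5 : ((L : ℝ) + 2) * (|C| * X ^ s) ≤ (2 / ε + 2) * X ^ ε * (|C| * X ^ s) :=
    mul_le_mul_of_nonneg_right h4 (by positivity)
  have h6 : (1 : ℝ) ≤ X ^ (s + ε) := Real.one_le_rpow hX (by linarith)
  have h7 : X ^ (s + ε) = X ^ s * X ^ ε := Real.rpow_add hX0 _ _
  calc ({t | t ∈ S ∧ (nm t : ℝ) ≤ X}.ncard : ℝ) ≤ (Z0.card : ℝ) + (2 / ε + 2) * X ^ ε * (|C| * X ^ s) := by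
        have h8 : (({t | t ∈ S ∧ (nm t : ℝ) ≤ X}.ncard : ℕ) : ℝ) ≤ ((Z0 ∪ (Finset.Ico i₁ (L + 1)).biUnion Z).card : ℝ) := by
          exact_mod_cast h1
        linarith
    _ ≤ (Z0.card : ℝ) * X ^ (s + ε) + (2 / ε + 2) * X ^ ε * (|C| * X ^ s) := by
        have : (Z0.card : ℝ) ≤ (Z0.card : ℝ) * X ^ (s + ε) := le_mul_of_one_le_right (Nat.cast_nonneg _) h6
        linarith
    _ = ((Z0.card : ℝ) + |C| * (2 / ε + 2)) * X ^ (s + ε) := by rw [h7]; ring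

/-- **no element of a thin set near `v_l α`** -/
theorem along {κ : Type} [Fintype κ] {T : Type} (co : T → κ → ℤ) (hinj : Function.Injective co) (S : Set T) {s : ℝ}
    (hs : 0 ≤ s) (hS : ∃ C : ℝ, ∃ i₁ : ℕ, ∀ i : ℕ, i₁ ≤ i →
      ({t | t ∈ S ∧ 2 ^ i ≤ nm co t ∧ nm co t < 2 ^ (i + 1)}.ncard : ℝ) ≤ C * ((2 : ℝ) ^ i) ^ s)
    {v : ℕ → ℝ} {τ θ : ℝ} (hv1 : ∀ l, 1 ≤ v l) (hτ : 0 ≤ τ) (hE : ∀ p : ℝ, τ < p → Summable (fun l => v l ^ (-p)))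
    (hθ : θ < 1) : ∃ E : Set (κ → ℝ), dimH E ≤ ENNReal.ofReal ((s + τ) / (1 - θ)) ∧ ∀ α : κ → ℝ, α ∉ E →
      ∃ l₀ : ℕ, ∀ l : ℕ, l₀ ≤ l → ∀ t ∈ S, ¬ ∀ j, |((co t j : ℤ) : ℝ) - α j * v l| ≤ (v l) ^ θ := by
  refine Pool.Agent.X174.windowsVec S (fun t j => ((co t j : ℤ) : ℝ)) hv1 hτ hE hs hθ fun ε hε => ?_
  obtain ⟨C, hC⟩ := cumulG S (nm co) (nm_finite co hinj) hs hS ε hε
  refine ⟨C, fun X hX => ?_⟩
  have e : {t | t ∈ S ∧ ∀ j, |((co t j : ℤ) : ℝ)| ≤ X} = {t | t ∈ S ∧ ((nm co t : ℕ) : ℝ) ≤ X} := by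
    ext t
    rw [Set.mem_setOf_eq, Set.mem_setOf_eq, nm_le_iff co t (by linarith)]
  rw [e]
  exact hC X hX

theorem vol_zero {κ : Type} [Fintype κ] {E : Set (κ → ℝ)} {D : ℝ} (h : dimH E ≤ ENNReal.ofReal D)
    (h0 : 0 ≤ D) (hD : D < Fintype.card κ) : volume E = 0 := by
  have h1 : dimH E < (((Fintype.card κ : ℕ) : NNReal) : ENNReal) := by
    refine lt_of_le_of_lt h ?_
    have h3 : (((Fintype.card κ : ℕ) : NNReal) : ENNReal) = ENNReal.ofReal ((Fintype.card κ : ℕ) : ℝ) := by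
      rw [ENNReal.ofReal_natCast]
      rfl
    rw [h3]
    exact (ENNReal.ofReal_lt_ofReal_iff (lt_of_le_of_lt h0 hD)).2 hD
  have h2 : Measure.hausdorffMeasure (X := κ → ℝ) (Fintype.card κ : ℝ) E = 0 := by
    simpa using hausdorffMeasure_of_dimH_lt (d := ((Fintype.card κ : ℕ) : NNReal)) h1
  rwa [hausdorffMeasure_pi_real] at h2

/-- almost all `α` -/
theorem along_ae {κ : Type} [Fintype κ] {T : Type} (co : T → κ → ℤ) (hinj : Function.Injective co) (S : Set T) {s : ℝ}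
    (hs : 0 ≤ s) (hS : ∃ C : ℝ, ∃ i₁ : ℕ, ∀ i : ℕ, i₁ ≤ i →
      ({t | t ∈ S ∧ 2 ^ i ≤ nm co t ∧ nm co t < 2 ^ (i + 1)}.ncard : ℝ) ≤ C * ((2 : ℝ) ^ i) ^ s)
    {v : ℕ → ℝ} {τ θ : ℝ} (hv1 : ∀ l, 1 ≤ v l) (hτ : 0 ≤ τ) (hE : ∀ p : ℝ, τ < p → Summable (fun l => v l ^ (-p)))
    (hθ : θ < 1) (h : s + τ < Fintype.card κ * (1 - θ)) : ∀ᵐ α : κ → ℝ,
      ∃ l₀ : ℕ, ∀ l : ℕ, l₀ ≤ l → ∀ t ∈ S, ¬ ∀ j, |((co t j : ℤ) : ℝ) - α j * v l| ≤ (v l) ^ θ := by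
  obtain ⟨E, h1, h2⟩ := along co hinj S hs hS hv1 hτ hE hθ
  have hd : 0 < 1 - θ := by linarith
  have h3 : volume E = 0 := by
    refine vol_zero h1 (by positivity) ?_
    rw [div_lt_iff₀ hd]
    exact h
  have h4 : ∀ᵐ α : κ → ℝ, α ∉ E := by
    rw [ae_iff]
    simpa using h3
  filter_upwards [h4] with α hα
  exact h2 α hα

end Pool.Agent.X124.RP
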