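import Pool.Agent.X16.NW.D

/-!
# Countably many exceptional sets and nonlinear windows
-/

set_option autoImplicit false

open Filter Topology MeasureTheory

namespace Pool.Agent.X124.RP

open Pool.Agent.X16.NW

/-- countably many exceptional sets at once -/
theorem pack {T : Type} (S : ℕ → Set T) (h : T → ℝ) {s : ℝ} (hs : 0 ≤ s)
    (hS : ∀ k : ℕ, ∀ ε : ℝ, 0 < ε → ∃ C : ℝ, ∀ X : ℝ, 1 ≤ X → {t | t ∈ S k ∧ h t ≤ X}.Finite ∧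
      ({t | t ∈ S k ∧ h t ≤ X}.ncard : ℝ) ≤ C * X ^ (s + ε)) :
    (∀ (f : ℕ → ℝ → ℝ) (I : Set ℝ) (τ θ : ℝ), 0 ≤ τ → LocExpanding f I τ → 0 ≤ θ → θ < 1 →
      ∃ E : Set ℝ, dimH E ≤ ENNReal.ofReal ((s + τ) / (1 - θ)) ∧ ∀ t ∈ I, t ∉ E → ∀ k : ℕ,
        ∃ n₀ : ℕ, ∀ n : ℕ, n₀ ≤ n → ∀ e ∈ S k, (f n t) ^ θ < |h e - f n t|) ∧
    (∀ κ : ℕ → ℝ, Tendsto (fun n : ℕ => κ n / Real.log n) atTop atTop → ∀ θ : ℝ, 0 ≤ θ →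
      s + θ < 1 → ∀ᵐ t : ℝ, 1 < t → ∀ k : ℕ, ∃ n₀ : ℕ, ∀ n : ℕ, n₀ ≤ n → ∀ e ∈ S k,
        (t ^ κ n) ^ θ < |h e - t ^ κ n|) ∧
    (∀ θ : ℝ, 0 ≤ θ → s + θ < 1 → ∀ᵐ t : ℝ, 1 / (1 - s - θ) < t → ∀ k : ℕ, ∃ n₀ : ℕ, ∀ n : ℕ,
      n₀ ≤ n → ∀ e ∈ S k, ((n : ℝ) ^ t) ^ θ < |h e - (n : ℝ) ^ t|) := by
  refine ⟨fun f I τ θ hτ hf hθ hθ1 => ?_, fun κ hκ θ hθ hθ1 => ?_, fun θ hθ hθ1 => ?_⟩
  · choose E hE1 hE2 using fun k : ℕ => windows_loc (S k) h hτ hs hθ hθ1 (hS k) I f hf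
    refine ⟨⋃ k, E k, ?_, fun t ht htE k => hE2 k t ht fun h => htE (Set.mem_iUnion.2 ⟨k, h⟩)⟩
    rw [dimH_iUnion]
    exact iSup_le hE1
  · have h1 := fun k : ℕ => ae_rpow (S k) h hs (hS k) κ hκ θ hθ hθ1
    filter_upwards [ae_all_iff.2 h1] with t ht ht1 k
    exact ht k ht1
  · have h1 := fun k : ℕ => ae_npow (S k) h hs (hS k) θ hθ hθ1
    filter_upwards [ae_all_iff.2 h1] with t ht ht1 k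
    exact ht k ht1

end Pool.Agent.X124.RP
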